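import Mathlib
import Pool.Agent.Q123.Thr.Final

/-!
The thrackle genus of a graph with `m` edges is at most `5 m`.
-/

namespace Pool.Agent.Results.MP_3f6a1f_co.FiveHandlesPerEdge

open Q123.Thr

/-- Every finite simple graph `G` with `m` edges can be thrackled on the closed orientable surface
of genus `5 m`; in particular its thrackle genus is at most `5 m`. -/
theorem result (V : Type) [Finite V] (G : SimpleGraph V) :
    CanBeThrackled G (5 * G.edgeSet.ncard) ∧ thrackleGenus G ≤ 5 * G.edgeSet.ncard :=
  ⟨canBeThrackled G, Nat.sInf_le (canBeThrackled G)⟩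

end Pool.Agent.Results.MP_3f6a1f_co.FiveHandlesPerEdge
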